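import Mathlib
import Pool.Agent.W896.MO.Rows

/-!
# Most triangular Toeplitz matrices over two elements have good ranks
-/

set_option autoImplicit false

open Finset

namespace Pool.Agent.W2helper58.TW

open Pool.Agent.W896.MO (sol Dep dep_of_sol)

/-- the Toeplitz matrix of `a` -/
def toep {h : ℕ} (a : Fin h → ZMod 2) (o k : Fin h) : ZMod 2 :=
  if hk : k.val ≤ o.val then a ⟨o.val - k.val, by have := o.2; omega⟩ else 0

/-- the sum of the rows in `S` -/
def comb {h : ℕ} (S : Finset (Fin h)) (a : Fin h → ZMod 2) (k : Fin h) : ZMod 2 :=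
  ∑ o ∈ S, toep a o k

/-- the support -/
def supp {h : ℕ} (u : Fin h → ZMod 2) : Finset (Fin h) := univ.filter (fun k => u k ≠ 0)

/-- few sets are small -/
theorem small_sets {α : Type} [DecidableEq α] (G : Finset α) (q : ℕ) (hq : q ≤ G.card) :
    (G.powerset.filter (fun S => S.card ≤ q)).card * 8 ^ (G.card - q) ≤ 9 ^ G.card := by
  have h1 := Finset.sum_pow_mul_eq_add_pow (1 : ℕ) 8 G
  have h2 : (1 + 8 : ℕ) = 9 := rfl
  rw [h2] at h1
  rw [← h1]
  calc (G.powerset.filter (fun S => S.card ≤ q)).card * 8 ^ (G.card - q)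
      = ∑ S ∈ G.powerset.filter (fun S => S.card ≤ q), 8 ^ (G.card - q) := by
        rw [sum_const, smul_eq_mul]
    _ ≤ ∑ S ∈ G.powerset.filter (fun S => S.card ≤ q), 1 ^ S.card * 8 ^ (G.card - S.card) := by
        refine sum_le_sum fun S hS => ?_
        rw [one_pow, one_mul]
        have := (mem_filter.1 hS).2
        exact Nat.pow_le_pow_right (by norm_num) (by omega)
    _ ≤ ∑ S ∈ G.powerset, 1 ^ S.card * 8 ^ (G.card - S.card) :=
        sum_le_sum_of_subset (filter_subset _ _)

theorem zmod2_eq_one {x : ZMod 2} (h : x ≠ 0) : x = 1 := by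
  revert x; decide

theorem supp_inj {h : ℕ} : Function.Injective (supp (h := h)) := by
  intro u v huv
  funext k
  by_cases hu : u k = 0
  · by_cases hv : v k = 0
    · rw [hu, hv]
    · have : k ∈ supp v := mem_filter.2 ⟨mem_univ _, hv⟩
      rw [← huv] at this
      exact absurd hu (mem_filter.1 this).2
  · by_cases hv : v k = 0
    · have : k ∈ supp u := mem_filter.2 ⟨mem_univ _, hu⟩
      rw [huv] at this
      exact absurd hv (mem_filter.1 this).2
    · rw [zmod2_eq_one hu, zmod2_eq_one hv]

/-- the fibres of the map `a ↦ comb S a` -/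
theorem fiber {h q : ℕ} (S : Finset (Fin h)) (hS : S.Nonempty)
    (hlow : ∀ o ∈ S, h ≤ o.val + q) (u : Fin h → ZMod 2) :
    (univ.filter (fun a : Fin h → ZMod 2 => comb S a = u)).card ≤ 2 ^ q := by
  classical
  obtain ⟨p, hp, hmin⟩ := S.exists_min_image (fun o => o.val) hS
  have hinj : Set.InjOn (fun (a : Fin h → ZMod 2) (j : {j : Fin h // p < j}) => a j.1)
      (univ.filter (fun a : Fin h → ZMod 2 => comb S a = u) : Finset (Fin h → ZMod 2)) := by
    intro a ha b hb hab
    have ha' := (mem_filter.1 (mem_coe.1 ha)).2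
    have hb' := (mem_filter.1 (mem_coe.1 hb)).2
    have key : ∀ m : ℕ, ∀ j : Fin h, h - 1 - j.val = m → a j = b j := by
      intro m
      induction m using Nat.strong_induction_on with
      | _ m ih =>
        intro j hj
        by_cases hpj : p < j
        · exact congrFun hab ⟨j, hpj⟩
        · have hjp : j.val ≤ p.val := not_lt.1 hpj
          have hk : p.val - j.val < h := by have := p.2; omega
          have h1 : comb S a ⟨p.val - j.val, hk⟩ = comb S b ⟨p.val - j.val, hk⟩ := by
            rw [ha', hb']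
          unfold comb at h1
          rw [← add_sum_erase S _ hp, ← add_sum_erase S _ hp] at h1
          have h2 : ∑ o ∈ S.erase p, toep a o ⟨p.val - j.val, hk⟩
              = ∑ o ∈ S.erase p, toep b o ⟨p.val - j.val, hk⟩ := by
            refine sum_congr rfl fun o ho => ?_
            have ho1 := ne_of_mem_erase ho
            have ho2 := hmin o (mem_of_mem_erase ho)
            have ho3 : p.val < o.val := lt_of_le_of_ne ho2 (fun h => ho1 (Fin.ext h.symm))
            unfold toep
            have ho4 : (⟨p.val - j.val, hk⟩ : Fin h).val ≤ o.val := by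
              change p.val - j.val ≤ o.val
              omega
            rw [dif_pos ho4, dif_pos ho4]
            refine ih _ ?_ _ rfl
            simp only
            have := o.2
            omega
          rw [h2] at h1
          have h3 := add_right_cancel h1
          unfold toep at h3
          have h4 : (⟨p.val - j.val, hk⟩ : Fin h).val ≤ p.val := by
            change p.val - j.val ≤ p.val
            omega
          rw [dif_pos h4, dif_pos h4] at h3
          have h5 : (⟨p.val - (⟨p.val - j.val, hk⟩ : Fin h).val, by have := p.2; omega⟩ : Fin h) = j := by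
            apply Fin.ext
            simp only
            omega
          rw [h5] at h3
          exact h3
    funext j
    exact key _ j rfl
  have h1 := Finset.card_le_card_of_injOn (t := (univ : Finset ({j : Fin h // p < j} → ZMod 2)))
    _ (fun _ _ => mem_coe.2 (mem_univ _)) hinj
  refine h1.trans ?_
  rw [card_univ, Fintype.card_fun, ZMod.card]
  refine Nat.pow_le_pow_right (by norm_num) ?_
  have h2 : Fintype.card {j : Fin h // p < j} = h - 1 - p.val := by
    rw [Fintype.card_subtype]
    have : (univ.filter (fun j : Fin h => p < j)) = Ioi p := by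
      ext j
      simp
    rw [this, Fin.card_Ioi]
  have := hlow p hp
  omega

/-- the rows that are used -/
def rows (h q : ℕ) : Finset (Fin h) := univ.filter (fun o => h ≤ o.val + 8 * q)

theorem card_rows {h q : ℕ} (hq : 8 * q ≤ h) : (rows h q).card = 8 * q := by
  unfold rows
  rcases Nat.eq_zero_or_pos (8 * q) with h0 | h0
  · rw [h0, card_eq_zero, filter_eq_empty_iff]
    intro o _ h1
    have := o.2
    omega
  · have hlt : h - 8 * q < h := by omega
    have : (univ.filter (fun o : Fin h => h ≤ o.val + 8 * q)) = Ici (⟨h - 8 * q, hlt⟩ : Fin h) := by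
      ext j
      simp only [mem_filter, mem_univ, true_and, mem_Ici, Fin.le_def]
      omega
    rw [this, Fin.card_Ici]
    simp only
    omega

/-- the good vectors -/
def Good {h : ℕ} (q : ℕ) (a : Fin h → ZMod 2) : Prop :=
  ∀ S : Finset (Fin h), S ⊆ rows h q → S.Nonempty → S.card ≤ q → q < (supp (comb S a)).card

theorem exists_good {h q : ℕ} (hq : 1 ≤ q) (h1 : 32 * q ≤ h) (h2 : h < 32 * (q + 1)) :
    ∃ a : Fin h → ZMod 2, Good q a := by
  classical
  by_contra hcon
  push Not at hcon
  -- the sets of rows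
  obtain ⟨Ls, hLs⟩ : ∃ Ls, Ls = (rows h q).powerset.filter (fun S => S.card ≤ q) := ⟨_, rfl⟩
  -- the low weight vectors
  obtain ⟨U, hU⟩ : ∃ U, U = univ.filter (fun u : Fin h → ZMod 2 => (supp u).card ≤ q) := ⟨_, rfl⟩
  have hcover : (univ : Finset (Fin h → ZMod 2)) ⊆
      (Ls.filter (fun S => S.Nonempty)).biUnion (fun S => U.biUnion (fun u =>
        univ.filter (fun a : Fin h → ZMod 2 => comb S a = u))) := by
    intro a _
    have h3 := hcon a
    unfold Good at h3
    push Not at h3
    obtain ⟨S, hS1, hS2, hS3, hS4⟩ := h3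
    rw [mem_biUnion]
    refine ⟨S, ?_, ?_⟩
    · rw [mem_filter, hLs, mem_filter, mem_powerset]
      exact ⟨⟨hS1, hS3⟩, hS2⟩
    · rw [mem_biUnion]
      refine ⟨comb S a, ?_, ?_⟩
      · rw [hU, mem_filter]
        exact ⟨mem_univ _, hS4⟩
      · rw [mem_filter]
        exact ⟨mem_univ _, rfl⟩
  have hle : 2 ^ h ≤ Ls.card * (U.card * 2 ^ (8 * q)) := by
    calc 2 ^ h = (univ : Finset (Fin h → ZMod 2)).card := by
          rw [card_univ, Fintype.card_fun, ZMod.card, Fintype.card_fin]
      _ ≤ _ := card_le_card hcover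
      _ ≤ ∑ S ∈ Ls.filter (fun S => S.Nonempty), U.card * 2 ^ (8 * q) := by
          refine card_biUnion_le.trans (sum_le_sum fun S hS => ?_)
          obtain ⟨hS1, hS2⟩ := mem_filter.1 hS
          rw [hLs, mem_filter, mem_powerset] at hS1
          refine card_biUnion_le.trans ?_
          calc ∑ u ∈ U, (univ.filter (fun a : Fin h → ZMod 2 => comb S a = u)).card
              ≤ ∑ _u ∈ U, 2 ^ (8 * q) := by
                refine sum_le_sum fun u _ => fiber S hS2 (fun o ho => ?_) u
                have := hS1.1 ho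
                unfold rows at this
                exact (mem_filter.1 this).2
            _ = U.card * 2 ^ (8 * q) := by rw [sum_const, smul_eq_mul]
      _ = (Ls.filter (fun S => S.Nonempty)).card * (U.card * 2 ^ (8 * q)) := by
          rw [sum_const, smul_eq_mul]
      _ ≤ _ := Nat.mul_le_mul_right _ (card_le_card (filter_subset _ _))
  -- numbers
  have hL : Ls.card ≤ 2 ^ (5 * q) := by
    have h3 := small_sets (rows h q) q (by rw [card_rows (by omega)]; omega)
    rw [card_rows (by omega), ← hLs] at h3
    have h4 : (9 : ℕ) ^ (8 * q) ≤ 2 ^ (26 * q) := by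
      rw [pow_mul, pow_mul]
      exact Nat.pow_le_pow_left (by norm_num) q
    have h5 : (8 : ℕ) ^ (8 * q - q) = 2 ^ (21 * q) := by
      have : (8 : ℕ) = 2 ^ 3 := by norm_num
      rw [this, ← pow_mul]
      congr 1
      omega
    rw [h5] at h3
    have h6 : Ls.card * 2 ^ (21 * q) ≤ 2 ^ (5 * q) * 2 ^ (21 * q) := by
      refine (h3.trans h4).trans (le_of_eq ?_)
      rw [← pow_add]
      congr 1
      omega
    exact Nat.le_of_mul_le_mul_right h6 (by positivity)
  have hUc : U.card ≤ 2 ^ (9 * q + 6) := by
    have h3 := small_sets (univ : Finset (Fin h)) q (by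
      rw [card_univ, Fintype.card_fin]; omega)
    rw [card_univ, Fintype.card_fin] at h3
    have h4 : U.card ≤ ((univ : Finset (Fin h)).powerset.filter (fun S => S.card ≤ q)).card := by
      refine card_le_card_of_injOn supp ?_ (fun _ _ _ _ h => supp_inj h)
      intro u hu
      rw [mem_coe, hU, mem_filter] at hu
      rw [mem_coe, mem_filter, mem_powerset]
      exact ⟨subset_univ _, hu.2⟩
    have h5 : U.card * 8 ^ (h - q) ≤ 9 ^ h := (Nat.mul_le_mul_right _ h4).trans h3
    have h6 : U.card * (8 ^ (h - q) * 8 ^ (32 * (q + 1) - h)) ≤ 9 ^ (32 * (q + 1)) := by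
      calc U.card * (8 ^ (h - q) * 8 ^ (32 * (q + 1) - h))
          = (U.card * 8 ^ (h - q)) * 8 ^ (32 * (q + 1) - h) := by ring
        _ ≤ 9 ^ h * 9 ^ (32 * (q + 1) - h) :=
            Nat.mul_le_mul h5 (Nat.pow_le_pow_left (by norm_num) _)
        _ = 9 ^ (32 * (q + 1)) := by rw [← pow_add]; congr 1; omega
    have h7 : (9 : ℕ) ^ (32 * (q + 1)) ≤ 2 ^ (102 * (q + 1)) := by
      rw [pow_mul, pow_mul]
      exact Nat.pow_le_pow_left (by norm_num) (q + 1)
    have h8 : (8 : ℕ) ^ (h - q) * 8 ^ (32 * (q + 1) - h) = 2 ^ (93 * q + 96) := by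
      have : (8 : ℕ) = 2 ^ 3 := by norm_num
      rw [← pow_add, this, ← pow_mul]
      congr 1
      omega
    rw [h8] at h6
    have h9 : U.card * 2 ^ (93 * q + 96) ≤ 2 ^ (9 * q + 6) * 2 ^ (93 * q + 96) := by
      refine (h6.trans h7).trans (le_of_eq ?_)
      rw [← pow_add]
      congr 1
      omega
    exact Nat.le_of_mul_le_mul_right h9 (by positivity)
  have hfin : 2 ^ h ≤ 2 ^ (22 * q + 6) := by
    calc 2 ^ h ≤ Ls.card * (U.card * 2 ^ (8 * q)) := hle
      _ ≤ 2 ^ (5 * q) * (2 ^ (9 * q + 6) * 2 ^ (8 * q)) := by gcongr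
      _ = 2 ^ (22 * q + 6) := by rw [← pow_add, ← pow_add]; congr 1; omega
  have := (Nat.pow_le_pow_iff_right (by norm_num : 1 < 2)).1 hfin
  omega

/-- Few solutions. -/
theorem good_sol {h q : ℕ} (h1 : 32 * q ≤ h) (a : Fin h → ZMod 2) (ha : Good q a)
    (Q O : Finset (Fin h)) (hQ : Q.card ≤ q) (hO : O ⊆ rows h q) :
    (sol (toep a) Q O).card * 2 ^ ((O.card + 7) / 8) ≤ 2 ^ (h - Q.card) := by
  classical
  obtain ⟨O', hO', hdep, hcard⟩ := dep_of_sol (toep a) Q O
  rw [ZMod.card] at hcard
  have hOc : O.card ≤ 8 * q := by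
    rw [← card_rows (h := h) (q := q) (by omega)]
    exact card_le_card hO
  have hge : (O.card + 7) / 8 ≤ O'.card := by
    by_contra hlt
    push Not at hlt
    have h3 : O'.card < O.card := by omega
    obtain ⟨o, ho, ho'⟩ := exists_mem_notMem_of_card_lt_card h3
    obtain ⟨c, hc⟩ := hdep
    obtain ⟨S, hS⟩ : ∃ S, S = insert o (O'.filter (fun x => c o x ≠ 0)) := ⟨_, rfl⟩
    have hoS : o ∉ O'.filter (fun x => c o x ≠ 0) := fun h => ho' (mem_filter.1 h).1
    have h4 := ha S (by
      rw [hS]
      apply insert_subset (hO ho)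
      exact (filter_subset _ _).trans (hO'.trans hO)) (by
      rw [hS]
      exact insert_nonempty _ _) (by
      rw [hS, card_insert_of_notMem hoS]
      have := card_filter_le O' (fun x => c o x ≠ 0)
      omega)
    have h5 : supp (comb S a) ⊆ Q := by
      intro u hu
      by_contra huQ
      apply (mem_filter.1 hu).2
      unfold comb
      rw [hS, sum_insert hoS, hc o ho u huQ, sum_filter, ← sum_add_distrib]
      refine sum_eq_zero fun x _ => ?_
      by_cases hx : c o x = 0
      · simp [hx]
      · rw [if_pos hx, zmod2_eq_one hx, one_mul]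
        exact CharTwo.add_self_eq_zero _
    have h6 := card_le_card h5
    omega
  calc (sol (toep a) Q O).card * 2 ^ ((O.card + 7) / 8)
      ≤ (sol (toep a) Q O).card * 2 ^ O'.card :=
        Nat.mul_le_mul_left _ (Nat.pow_le_pow_right (by norm_num) hge)
    _ ≤ _ := hcard

end Pool.Agent.W2helper58.TW
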