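import Pool.Agent.Y631.TrMv
import Pool.Agent.W2helper58.TW.Toeplitz

/-!
# Multiplication of polynomials over two elements: reads times treewidth
-/

set_option autoImplicit false

open Finset

namespace Pool.Agent.W2helper58.TW

open Pool.Agent.W896.MO (sol coset coset')
open Pool.Agent.Y631.Tr

/-- Multiplication of two polynomials over `𝔽₂`, as a length-preserving function: with
`h = ⌊n / 2⌋`, the bits `0, …, h - 1` of `x` are the coefficients of the first polynomial, the bits
`h, …, 2 h - 1` those of the second one, and the bit `i` of the value is the coefficient of degree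
`i` of the product. -/
def polyMul (n : ℕ) (x : Fin n → Bool) (i : Fin n) : Bool :=
  decide (Odd (univ.filter (fun p : Fin (n / 2) × Fin (n / 2) => p.1.val + p.2.val = i.val ∧
    x ⟨p.1.val, by omega⟩ = true ∧ x ⟨n / 2 + p.2.val, by omega⟩ = true)).card)

/-- the input with the coefficients `a` and `y` -/
def inp (n : ℕ) (a y : Fin (n / 2) → ZMod 2) (m : Fin n) : Bool :=
  if h : m.val < n / 2 then decide (a ⟨m.val, h⟩ = 1)
  else if h' : m.val - n / 2 < n / 2 then decide (y ⟨m.val - n / 2, h'⟩ = 1) else false

theorem inp_left (n : ℕ) (a y : Fin (n / 2) → ZMod 2) (j : Fin (n / 2)) :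
    inp n a y ⟨j.val, by omega⟩ = decide (a j = 1) := by
  unfold inp
  rw [dif_pos j.2]

theorem inp_right (n : ℕ) (a y : Fin (n / 2) → ZMod 2) (k : Fin (n / 2)) :
    inp n a y ⟨n / 2 + k.val, by omega⟩ = decide (y k = 1) := by
  unfold inp
  have h1 : ¬ (n / 2 + k.val < n / 2) := by omega
  have h2 : n / 2 + k.val - n / 2 < n / 2 := by omega
  simp only
  rw [dif_neg h1, dif_pos h2]
  congr 3
  apply Fin.ext
  simp

theorem zmod2_cases (x : ZMod 2) : x = 0 ∨ x = 1 := by
  revert x; decide

theorem polyMul_inp (n : ℕ) (a y : Fin (n / 2) → ZMod 2) (o : Fin n) (ho : o.val < n / 2) :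
    polyMul n (inp n a y) o = decide (∑ k, toep a ⟨o.val, ho⟩ k * y k = 1) := by
  classical
  unfold polyMul
  congr 1
  rw [eq_iff_iff]
  have h1 : ∑ k, toep a ⟨o.val, ho⟩ k * y k =
      ((univ.filter (fun k : Fin (n / 2) => toep a ⟨o.val, ho⟩ k = 1 ∧ y k = 1)).card : ZMod 2) := by
    rw [card_filter, Nat.cast_sum]
    refine sum_congr rfl fun k _ => ?_
    rcases zmod2_cases (toep a ⟨o.val, ho⟩ k) with h | h <;>
      rcases zmod2_cases (y k) with h' | h' <;> simp [h, h']
  rw [h1, ZMod.natCast_eq_one_iff_odd]
  have h2 : (univ.filter (fun p : Fin (n / 2) × Fin (n / 2) => p.1.val + p.2.val = o.val ∧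
    inp n a y ⟨p.1.val, by omega⟩ = true ∧ inp n a y ⟨n / 2 + p.2.val, by omega⟩ = true)).card
      = (univ.filter (fun k : Fin (n / 2) => toep a ⟨o.val, ho⟩ k = 1 ∧ y k = 1)).card := by
    refine card_bij' (fun p _ => p.2) (fun k hk => (⟨o.val - k.val, by omega⟩, k)) ?_ ?_ ?_ ?_
    · rintro ⟨j, k⟩ hp
      rw [mem_filter] at hp ⊢
      obtain ⟨-, hsum, hj, hk⟩ := hp
      simp only at hsum hj hk ⊢
      rw [inp_left] at hj
      rw [inp_right] at hk
      refine ⟨mem_univ _, ?_, of_decide_eq_true hk⟩
      unfold toep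
      have hle : k.val ≤ o.val := by omega
      rw [dif_pos hle]
      have : (⟨o.val - k.val, by omega⟩ : Fin (n / 2)) = j := Fin.ext (by simp only; omega)
      rw [this]
      exact of_decide_eq_true hj
    · intro k hk
      rw [mem_filter] at hk ⊢
      obtain ⟨-, h3, h4⟩ := hk
      unfold toep at h3
      split_ifs at h3 with hle
      · simp only at hle
        refine ⟨mem_univ _, ?_, ?_, ?_⟩
        · simp only
          omega
        · have := inp_left n a y ⟨o.val - k.val, by omega⟩
          simp only at this ⊢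
          rw [this]
          exact decide_eq_true h3
        · simp only
          rw [inp_right]
          exact decide_eq_true h4
      · exact absurd h3 (by decide)
    · rintro ⟨j, k⟩ hp
      rw [mem_filter] at hp
      apply Prod.ext
      · apply Fin.ext
        have := hp.2.1
        simp only at this ⊢
        omega
      · rfl
    · intro k _
      rfl
  rw [← h2]

theorem decide_eq_one_iff {x y : ZMod 2} : (decide (x = 1) = decide (y = 1)) ↔ x = y := by
  revert x y; decide

/-- all the coefficients of the second polynomial are read -/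
theorem reads_ge {n : ℕ} (C : Net (Fin n) (Fin n) Bool)
    (hC : ∀ x, C.Computes x (polyMul n x)) : n / 2 ≤ C.reads := by
  classical
  have h1 : ∀ k : Fin (n / 2), (⟨n / 2 + k.val, by omega⟩ : Fin n) ∈ C.readSet univ := by
    intro k
    by_contra hk
    have h0 : 0 < n / 2 := lt_of_le_of_lt (Nat.zero_le _) k.2
    obtain ⟨e, he⟩ : ∃ e : Fin (n / 2) → ZMod 2, ∀ j, e j = if j.val = 0 then 1 else 0 :=
      ⟨_, fun _ => rfl⟩
    obtain ⟨f, hf⟩ : ∃ f : Fin (n / 2) → ZMod 2, ∀ j, f j = if j = k then 1 else 0 :=
      ⟨_, fun _ => rfl⟩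
    obtain ⟨v, hv1, hv2⟩ := hC (inp n e 0)
    obtain ⟨v', hv1', hv2'⟩ := hC (inp n e f)
    have hcl : Closed C.Joined univ ∅ := fun h _ _ _ => Or.inl (mem_univ h)
    have h2 := C.local_vals hcl hv1 hv1' (fun g hg => absurd hg (notMem_empty g)) (by
      intro i hi
      unfold inp
      split_ifs with h3 h4
      · rfl
      · have h5 : (⟨i.val - n / 2, h4⟩ : Fin (n / 2)) ≠ k := by
          intro h6
          apply hk
          have : (⟨n / 2 + k.val, by omega⟩ : Fin n) = i := by
            apply Fin.ext
            have := congrArg Fin.val h6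
            simp only at this ⊢
            omega
          rw [this]
          exact hi
        rw [hf]
        simp [h5]
      · rfl)
    have hkn : k.val < n := by omega
    have h3 := h2 (C.out ⟨k.val, hkn⟩) (mem_univ _)
    rw [hv2, hv2', polyMul_inp n e 0 ⟨k.val, hkn⟩ k.2, polyMul_inp n e f ⟨k.val, hkn⟩ k.2,
      decide_eq_one_iff] at h3
    have h4 : ∑ k', toep e (⟨k.val, k.2⟩ : Fin (n / 2)) k' * f k' = 1 := by
      rw [sum_eq_single k]
      · rw [hf]
        unfold toep
        rw [dif_pos (by simp), he]
        simp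
      · intro b _ hb
        rw [hf]
        simp [hb]
      · intro h
        exact absurd (mem_univ _) h
    simp only at h3
    rw [h4] at h3
    simp at h3
  have h2 : (univ.image (fun k : Fin (n / 2) => (⟨n / 2 + k.val, by omega⟩ : Fin n))) ⊆
      C.readSet univ := by
    intro i hi
    obtain ⟨k, -, rfl⟩ := mem_image.1 hi
    exact h1 k
  have h3 := card_le_card h2
  rw [card_image_of_injective _ (by
    intro k k' hkk
    have := congrArg Fin.val hkk
    simp only at this
    exact Fin.ext (by omega)), card_univ, Fintype.card_fin] at h3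
  refine h3.trans ((C.card_readSet univ).trans (le_of_eq ?_))
  rfl

theorem main {n : ℕ} (hn : 64 ≤ n) (t : ℕ) (C : Net (Fin n) (Fin n) Bool)
    (ht : C.TreewidthLE t) (hC : ∀ x, C.Computes x (polyMul n x)) :
    n ^ 2 ≤ 2 ^ 18 * ((t + 1) * C.reads) := by
  classical
  obtain ⟨h, hh⟩ : ∃ h, h = n / 2 := ⟨_, rfl⟩
  obtain ⟨q, hq⟩ : ∃ q, q = n / 2 / 32 := ⟨_, rfl⟩
  have hq1 : 1 ≤ q := by omega
  have hq2 : 32 * q ≤ n / 2 := by omega
  have hq3 : n / 2 < 32 * (q + 1) := by omega
  obtain ⟨a, ha⟩ := exists_good hq1 hq2 hq3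
  obtain ⟨L, hL1, hL2, hL3⟩ := C.exists_pieces t ht q
  obtain ⟨cov, hcov⟩ : ∃ cov : Finset (Fin C.size) × Finset (Fin C.size) × ℕ → Fin n → Prop,
    cov = fun p o => C.out o ∈ p.1 ∨ C.out o ∈ p.2.1 := ⟨_, rfl⟩
  obtain ⟨R, hR⟩ : ∃ R : Finset (Fin n), R = univ.filter (fun o : Fin n => o.val < n / 2 ∧
    n / 2 ≤ o.val + 8 * q) := ⟨_, rfl⟩
  have key : ∀ p ∈ L, (R.filter (cov p)).card ≤ 8 * ((t + 1) * (p.2.2 + 1)) := by
    intro p hp
    obtain ⟨hcl, hBc, hSw⟩ := hL1 p hp
    have hrc := (C.card_readSet p.1).trans hSw
    obtain ⟨J, hJ⟩ : ∃ J, J = R.filter (cov p) := ⟨_, rfl⟩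
    have hJlt : ∀ o ∈ J, o.val < n / 2 := by
      intro o ho
      rw [hJ, hR] at ho
      exact (mem_filter.1 (mem_filter.1 ho).1).2.1
    have hcount := C.piece_count (inp n a) (fun y => polyMul n (inp n a y)) univ
      (fun y _ => hC _) hcl (2 ^ ((J.card + 7) / 8)) J
      (fun o ho => by
        rw [hJ, mem_filter, hcov] at ho
        exact ho.2) (by
        intro y0 _
        obtain ⟨Q, hQ⟩ : ∃ Q : Finset (Fin (n / 2)), Q = univ.filter (fun k : Fin (n / 2) =>
          (⟨n / 2 + k.val, by omega⟩ : Fin n) ∈ C.readSet p.1) := ⟨_, rfl⟩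
        have hQc : Q.card ≤ q := by
          refine le_trans ?_ hrc
          rw [hQ]
          refine card_le_card_of_injOn
            (fun k : Fin (n / 2) => (⟨n / 2 + k.val, by omega⟩ : Fin n)) ?_ ?_
          · intro k hk
            rw [mem_coe, mem_filter] at hk
            exact hk.2
          · intro k _ k' _ hkk
            have := congrArg Fin.val hkk
            simp only at this
            exact Fin.ext (by omega)
        -- the rows
        obtain ⟨O, hO⟩ : ∃ O : Finset (Fin (n / 2)), O = univ.filter (fun o : Fin (n / 2) =>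
          (⟨o.val, by omega⟩ : Fin n) ∈ J) := ⟨_, rfl⟩
        have hOrows : O ⊆ rows (n / 2) q := by
          intro o ho
          rw [hO, mem_filter, hJ, mem_filter, hR, mem_filter] at ho
          unfold rows
          rw [mem_filter]
          exact ⟨mem_univ _, ho.2.1.2.2⟩
        have hOJ : J.card ≤ O.card := by
          refine card_le_card_of_injOn (fun o : Fin n =>
            if ho : o.val < n / 2 then (⟨o.val, ho⟩ : Fin (n / 2)) else ⟨0, by omega⟩) ?_ ?_
          · intro o ho
            have hlt := hJlt o (mem_coe.1 ho)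
            rw [mem_coe, hO, mem_filter]
            simp only [dif_pos hlt]
            exact ⟨mem_univ _, mem_coe.1 ho⟩
          · intro o ho o' ho' hoo
            have hlt := hJlt o (mem_coe.1 ho)
            have hlt' := hJlt o' (mem_coe.1 ho')
            simp only [dif_pos hlt, dif_pos hlt'] at hoo
            have := congrArg Fin.val hoo
            exact Fin.ext this
        have hsol := good_sol hq2 a ha Q O hQc hOrows
        have e1 := coset (toep a) y0 Q O
        have e2 := coset' (F := ZMod 2) y0 Q
        rw [ZMod.card] at e2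
        have hagree : ∀ y : Fin (n / 2) → ZMod 2, (∀ i ∈ C.readSet p.1, inp n a y i = inp n a y0 i) ↔
            ∀ k ∈ Q, y k = y0 k := by
          intro y
          constructor
          · intro h1 k hk
            rw [hQ, mem_filter] at hk
            have := h1 _ hk.2
            rw [inp_right, inp_right, decide_eq_one_iff] at this
            exact this
          · intro h1 i hi
            unfold inp
            split_ifs with h2 h3
            · rfl
            · have : (⟨i.val - n / 2, h3⟩ : Fin (n / 2)) ∈ Q := by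
                rw [hQ, mem_filter]
                refine ⟨mem_univ _, ?_⟩
                have h4 : (⟨n / 2 + (i.val - n / 2), by omega⟩ : Fin n) = i := by
                  apply Fin.ext
                  simp only
                  omega
                simp only
                rw [h4]
                exact hi
              rw [h1 _ this]
            · rfl
        have houts : ∀ y : Fin (n / 2) → ZMod 2,
            (∀ o ∈ J, polyMul n (inp n a y) o = polyMul n (inp n a y0) o) →
            ∀ o ∈ O, ∑ k, toep a o k * y k = ∑ k, toep a o k * y0 k := by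
          intro y h1 o ho
          rw [hO, mem_filter] at ho
          have h2 := h1 _ ho.2
          rw [polyMul_inp n a y _ o.2, polyMul_inp n a y0 _ o.2, decide_eq_one_iff] at h2
          exact h2
        rw [Nat.card_eq_fintype_card, Fintype.card_subtype, Nat.card_eq_fintype_card,
          Fintype.card_subtype]
        calc (univ.filter (fun y : Fin (n / 2) → ZMod 2 => y ∈ univ ∧
              (∀ i ∈ C.readSet p.1, inp n a y i = inp n a y0 i) ∧
              ∀ o ∈ J, polyMul n (inp n a y) o = polyMul n (inp n a y0) o)).card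
              * 2 ^ ((J.card + 7) / 8)
            ≤ (univ.filter (fun z : Fin (n / 2) → ZMod 2 => (∀ k ∈ Q, z k = y0 k) ∧
              ∀ o ∈ O, ∑ k, toep a o k * z k = ∑ k, toep a o k * y0 k)).card
              * 2 ^ ((O.card + 7) / 8) := by
              refine Nat.mul_le_mul (card_le_card ?_) (Nat.pow_le_pow_right (by norm_num) ?_)
              · intro y hy
                rw [mem_filter] at hy ⊢
                exact ⟨mem_univ _, (hagree y).1 hy.2.2.1, houts y hy.2.2.2⟩
              · exact Nat.div_le_div_right (Nat.add_le_add_right hOJ 7)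
          _ ≤ 2 ^ (n / 2 - Q.card) := by rw [e1]; exact hsol
          _ = (univ.filter (fun z : Fin (n / 2) → ZMod 2 => ∀ k ∈ Q, z k = y0 k)).card := e2.symm
          _ = _ := by
              congr 1
              ext y
              rw [mem_filter, mem_filter, hagree y])
    rw [card_univ, Fintype.card_fun, ZMod.card, Fintype.card_fin, Fintype.card_bool] at hcount
    have h2 : 2 ^ ((J.card + 7) / 8) ≤ 2 ^ p.2.1.card := by
      have h9 : 0 < 2 ^ (n / 2) := by positivity
      refine Nat.le_of_mul_le_mul_left ?_ h9
      rw [mul_comm (2 ^ (n / 2)) (2 ^ p.2.1.card)]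
      exact hcount
    have h3 := (Nat.pow_le_pow_iff_right (by norm_num : 1 < 2)).1 h2
    rw [← hJ]
    have h4 : J.card ≤ 8 * (p.2.2 * (t + 1)) := by omega
    refine h4.trans ?_
    nlinarith
  have hRc : R.card = 8 * q := by
    have h1 := card_rows (h := n / 2) (q := q) (by omega)
    rw [← h1]
    refine card_bij' (fun o ho => ⟨o.val, by rw [hR, mem_filter] at ho; exact ho.2.1⟩)
      (fun o _ => ⟨o.val, by omega⟩) ?_ ?_ ?_ ?_
    · intro o ho
      rw [hR, mem_filter] at ho
      unfold rows
      rw [mem_filter]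
      exact ⟨mem_univ _, ho.2.2⟩
    · intro o ho
      unfold rows at ho
      rw [mem_filter] at ho
      rw [hR, mem_filter]
      exact ⟨mem_univ _, o.2, ho.2⟩
    · intro o _; rfl
    · intro o _; rfl
  have hsum : 8 * q ≤ 8 * ((t + 1) * cost L) := by
    have h2 := cover_sum cov L R (fun o _ => by rw [hcov]; exact hL2 (C.out o))
    rw [hRc] at h2
    refine h2.trans ?_
    unfold cost
    rw [← List.sum_map_mul_left, ← List.sum_map_mul_left]
    apply List.sum_le_sum
    intro p hp
    exact key p hp
  have h5 : q ≤ (t + 1) * cost L := by omega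
  have h6 : q * q ≤ (t + 1) * (11 * C.reads + q) := by
    calc q * q ≤ q * ((t + 1) * cost L) := Nat.mul_le_mul_left _ h5
      _ = (t + 1) * (q * cost L) := by ring
      _ ≤ _ := Nat.mul_le_mul_left _ hL3
  have h7 := reads_ge C hC
  have h8 : n ≤ 128 * q := by omega
  calc n ^ 2 ≤ (128 * q) ^ 2 := Nat.pow_le_pow_left h8 2
    _ = 2 ^ 14 * (q * q) := by ring
    _ ≤ 2 ^ 14 * ((t + 1) * (11 * C.reads + q)) := Nat.mul_le_mul_left _ h6
    _ ≤ 2 ^ 14 * ((t + 1) * (16 * C.reads)) := by
        apply Nat.mul_le_mul_left
        apply Nat.mul_le_mul_left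
        omega
    _ = 2 ^ 18 * ((t + 1) * C.reads) := by ring

end Pool.Agent.W2helper58.TW
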